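import Pool.Agent.K4H23.NZ.Spec

set_option autoImplicit false

open Finset Pointwise

namespace Pool.Agent.K4H23.NZ

theorem d1 {x y a : ℝ} (hx : 0 < x) (hy : 0 < y) (hxy : x ≠ y) (ha : 0 < a) :
    (1 + x) ^ (1 + a) < (1 + y) ^ a * (1 + x ^ (1 + a) / y ^ a) := by
  have hconv := strictConvexOn_rpow (p := 1 + a) (by linarith)
  have hne : (1 : ℝ) ≠ x / y := by
    intro h
    rw [eq_div_iff hy.ne'] at h
    exact hxy (by linarith)
  have h1y : 0 < 1 + y := by linarith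
  obtain ⟨-, hc⟩ := hconv
  have h := hc (Set.mem_Ici.2 zero_le_one) (Set.mem_Ici.2 (div_pos hx hy).le) hne
    (div_pos one_pos h1y) (div_pos hy h1y) (by field_simp)
  simp only [smul_eq_mul, mul_one, Real.one_rpow] at h
  have e1 : 1 / (1 + y) + y / (1 + y) * (x / y) = (1 + x) / (1 + y) := by field_simp
  rw [e1, Real.div_rpow (by linarith) h1y.le, Real.div_rpow hx.le hy.le] at h
  have hp : 0 < (1 + y) ^ (1 + a) := Real.rpow_pos_of_pos h1y _
  rw [div_lt_iff₀ hp] at h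
  refine h.trans_eq ?_
  rw [Real.rpow_add h1y, Real.rpow_one, Real.rpow_add hy, Real.rpow_one]
  have hya : 0 < y ^ a := Real.rpow_pos_of_pos hy _
  field_simp

/-- the `e`-th root of `V` -/
theorem V_eq {e : ℕ} (he : 1 ≤ e) {M n : ℝ} (k : ℕ) (hk : 1 ≤ k) (hn : 0 ≤ n) :
    V e M k n = (((k : ℝ) + 1) ^ (1 / (e : ℝ)) *
      (n ^ (1 / (e : ℝ)) / (k : ℝ) ^ (1 / (e : ℝ)) + M)) ^ e := by
  have hk0 : (0 : ℝ) ≤ k := Nat.cast_nonneg k
  unfold V g
  rw [mul_pow, Real.div_rpow hn hk0]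
  congr 1
  rw [one_div, Real.rpow_inv_natCast_pow (by linarith) (by omega)]

theorem d2_core {a t M k m : ℝ} (ha : 0 < a) (hM : 0 < M) (hk : 0 < k) (hkm : k < m)
    (ht : M * m ^ (1 + a) ≤ t) :
    (m + 1) ^ a * (t / m ^ a + M) < (k + 1) ^ a * (t / k ^ a + M) := by
  have hm : 0 < m := hk.trans hkm
  have hd := d1 (x := m) (y := k) hm hk hkm.ne' ha
  have hka : 0 < k ^ a := Real.rpow_pos_of_pos hk _
  have hma : 0 < m ^ a := Real.rpow_pos_of_pos hm _
  have hk1 : 0 < (k + 1) ^ a := Real.rpow_pos_of_pos (by linarith) _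
  have hm1 : 0 < (m + 1) ^ a := Real.rpow_pos_of_pos (by linarith) _
  rw [add_comm 1 m, add_comm 1 k, Real.rpow_add (by linarith : (0 : ℝ) < m + 1), Real.rpow_one,
    Real.rpow_add hm, Real.rpow_one] at hd
  rw [Real.rpow_add hm, Real.rpow_one] at ht
  -- (m+1)^a / m^a < (k+1)^a / k^a
  have hlt : (m + 1) ^ a / m ^ a < (k + 1) ^ a / k ^ a := by
    rw [← Real.div_rpow (by linarith) hm.le, ← Real.div_rpow (by linarith) hk.le]
    apply Real.rpow_lt_rpow (by positivity) _ ha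
    rw [div_lt_div_iff₀ hm hk]
    nlinarith
  have h1 : M * (m * m ^ a) * ((k + 1) ^ a / k ^ a - (m + 1) ^ a / m ^ a) ≤
      t * ((k + 1) ^ a / k ^ a - (m + 1) ^ a / m ^ a) :=
    mul_le_mul_of_nonneg_right ht (by linarith)
  have e1 : (m + 1) ^ a * (t / m ^ a + M) = t * ((m + 1) ^ a / m ^ a) + M * (m + 1) ^ a := by ring
  have e2 : (k + 1) ^ a * (t / k ^ a + M) = t * ((k + 1) ^ a / k ^ a) + M * (k + 1) ^ a := by ring
  have e3 : M * (m * m ^ a) * ((k + 1) ^ a / k ^ a - (m + 1) ^ a / m ^ a) =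
      M * ((k + 1) ^ a * (m * m ^ a / k ^ a)) - M * (m * (m + 1) ^ a) := by
    field_simp
  rw [e3] at h1
  rw [e1, e2]
  have h2 := mul_lt_mul_of_pos_left hd hM
  nlinarith [h1, h2]

theorem d2_core' {a t M k m : ℝ} (ha : 0 < a) (hM : 0 < M) (hk : 0 < k) (hkm : k < m)
    (ht : t ≤ M * k ^ (1 + a)) :
    (k + 1) ^ a * (t / k ^ a + M) < (m + 1) ^ a * (t / m ^ a + M) := by
  have hm : 0 < m := hk.trans hkm
  have hd := d1 (x := k) (y := m) hk hm hkm.ne ha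
  have hka : 0 < k ^ a := Real.rpow_pos_of_pos hk _
  have hma : 0 < m ^ a := Real.rpow_pos_of_pos hm _
  have hk1 : 0 < (k + 1) ^ a := Real.rpow_pos_of_pos (by linarith) _
  have hm1 : 0 < (m + 1) ^ a := Real.rpow_pos_of_pos (by linarith) _
  rw [add_comm 1 m, add_comm 1 k, Real.rpow_add (by linarith : (0 : ℝ) < k + 1), Real.rpow_one,
    Real.rpow_add hk, Real.rpow_one] at hd
  rw [Real.rpow_add hk, Real.rpow_one] at ht
  have hlt : (m + 1) ^ a / m ^ a < (k + 1) ^ a / k ^ a := by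
    rw [← Real.div_rpow (by linarith) hm.le, ← Real.div_rpow (by linarith) hk.le]
    apply Real.rpow_lt_rpow (by positivity) _ ha
    rw [div_lt_div_iff₀ hm hk]
    nlinarith
  have h1 : t * ((k + 1) ^ a / k ^ a - (m + 1) ^ a / m ^ a) ≤
      M * (k * k ^ a) * ((k + 1) ^ a / k ^ a - (m + 1) ^ a / m ^ a) :=
    mul_le_mul_of_nonneg_right ht (by linarith)
  have e1 : (m + 1) ^ a * (t / m ^ a + M) = t * ((m + 1) ^ a / m ^ a) + M * (m + 1) ^ a := by ring
  have e2 : (k + 1) ^ a * (t / k ^ a + M) = t * ((k + 1) ^ a / k ^ a) + M * (k + 1) ^ a := by ring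
  have e3 : M * (k * k ^ a) * ((k + 1) ^ a / k ^ a - (m + 1) ^ a / m ^ a) =
      M * (k * (k + 1) ^ a) - M * ((m + 1) ^ a * (k * k ^ a / m ^ a)) := by
    field_simp
  rw [e3] at h1
  rw [e1, e2]
  have h2 := mul_lt_mul_of_pos_left hd hM
  nlinarith [h1, h2]

theorem root_mul {e : ℕ} (he : 1 ≤ e) {M : ℝ} (hM : 0 ≤ M) (m : ℕ) (hm : 1 ≤ m) :
    (M ^ e * (m : ℝ) ^ (e + 1)) ^ (1 / (e : ℝ)) = M * (m : ℝ) ^ (1 + 1 / (e : ℝ)) := by
  have hm0 : (0 : ℝ) < m := by exact_mod_cast hm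
  have he0 : (e : ℝ) ≠ 0 := by
    have : (1 : ℝ) ≤ e := by exact_mod_cast he
    linarith
  rw [Real.mul_rpow (by positivity) (by positivity), one_div,
    Real.pow_rpow_inv_natCast hM (by omega), ← Real.rpow_natCast, ← Real.rpow_mul hm0.le]
  congr 2
  push_cast
  field_simp

theorem d2a {e : ℕ} (he : 1 ≤ e) {M n : ℝ} (hM : 0 < M) {k m : ℕ} (hk : 1 ≤ k) (hkm : k < m)
    (hn : M ^ e * (m : ℝ) ^ (e + 1) ≤ n) : V e M m n < V e M k n := by
  have hm : 1 ≤ m := by omega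
  have hk0 : (0 : ℝ) < k := by exact_mod_cast hk
  have hm0 : (0 : ℝ) < m := by exact_mod_cast hm
  have hn0 : 0 ≤ n := le_trans (by positivity) hn
  have ha : 0 < 1 / (e : ℝ) := by
    have : (1 : ℝ) ≤ e := by exact_mod_cast he
    positivity
  rw [V_eq he m hm hn0, V_eq he k hk hn0]
  refine pow_lt_pow_left₀ ?_ (by positivity) (by omega)
  refine d2_core ha hM hk0 (by exact_mod_cast hkm) ?_
  rw [← root_mul he hM.le m hm]
  exact Real.rpow_le_rpow (by positivity) hn ha.le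

theorem d2b {e : ℕ} (he : 1 ≤ e) {M n : ℝ} (hM : 0 < M) {k m : ℕ} (hk : 1 ≤ k) (hkm : k < m)
    (hn0 : 0 < n) (hn : n ≤ M ^ e * (k : ℝ) ^ (e + 1)) : V e M k n < V e M m n := by
  have hm : 1 ≤ m := by omega
  have hk0 : (0 : ℝ) < k := by exact_mod_cast hk
  have hm0 : (0 : ℝ) < m := by exact_mod_cast hm
  have ha : 0 < 1 / (e : ℝ) := by
    have : (1 : ℝ) ≤ e := by exact_mod_cast he
    positivity
  rw [V_eq he m hm hn0.le, V_eq he k hk hn0.le]
  refine pow_lt_pow_left₀ ?_ (by positivity) (by omega)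
  refine d2_core' ha hM hk0 (by exact_mod_cast hkm) ?_
  rw [← root_mul he hM.le k hk]
  exact Real.rpow_le_rpow hn0.le hn ha.le

end Pool.Agent.K4H23.NZ
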