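import Pool.Agent.K4H59.TL.New
import Pool.Agent.K4H12.TLM0

open Set

namespace Pool.Agent.K4H59.TL

open Pool.Agent.K4H72.Til (IsPolygon ShareEdge IsTiling Tile Derivable Adj HasLocEig)

theorem M4.sh_zero (K : Set ℂ) : sh 0 K = K := by
  simp [sh]

theorem M4.sh_mono (t : ℂ) {K L : Set ℂ} (h : K ⊆ L) : sh t K ⊆ sh t L := image_mono h

section
variable {C : Type} {T : Set (Tile C)} (hT : IsTiling T) {rep : Set ℂ → Set ℂ} {t : Set ℂ → ℂ}
  (h1 : ∀ K, K = sh (t K) (rep K)) (h2 : ∀ K s, rep (sh s K) = rep K)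
  {D₀ : Set ℂ → Set (Set ℂ)} {ρ₀ : Set ℂ → Set ℂ → ℕ} (hD : ∀ K, IsPolygon K → GoodDec K (D₀ K) (ρ₀ K))

include h1 in
theorem M4.rep_eq (K : Set ℂ) : rep K = sh (-(t K)) K := by
  have h := congrArg (sh (-(t K))) (h1 K)
  rw [sh_sh, neg_add_cancel, M4.sh_zero] at h
  exact h.symm

include hT h1 h2 hD

theorem newT_der : Derivable T (newT T rep t D₀) := by
  have hpol : ∀ s ∈ T, IsPolygon (rep s.1) := by
    intro s hs
    rw [M4.rep_eq h1]
    exact sh_polygon _ (hT.polygon s hs)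
  refine ⟨1, one_pos, ?_⟩
  have key : ∀ x y : ℂ, Pool.Agent.K4H72.Til.patch T (-x) (Metric.ball 0 1) =
      Pool.Agent.K4H72.Til.patch T (-y) (Metric.ball 0 1) →
      Pool.Agent.K4H72.Til.patch (newT T rep t D₀) (-x) {0} ⊆
        Pool.Agent.K4H72.Til.patch (newT T rep t D₀) (-y) {0} := by
    rintro x y hxy _ ⟨⟨q, ⟨s, hs, Q₀, hQ₀, rfl⟩, rfl⟩, z, hz, hz0⟩
    rw [mem_singleton_iff] at hz0
    subst hz0
    -- the tile `s` is in the patch of `T`
    have hsub : Q₀ ⊆ rep s.1 := (hD _ (hpol s hs)).sub Q₀ hQ₀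
    have h3 : Pool.Agent.K4H72.Til.shift (-x) s ∈
        Pool.Agent.K4H72.Til.patch T (-x) (Metric.ball 0 1) := by
      refine ⟨mem_image_of_mem _ hs, 0, ?_, Metric.mem_ball_self one_pos⟩
      have h4 : (0 : ℂ) ∈ sh (-x) (sh (t s.1) Q₀) := hz
      have h5 := M4.sh_mono (-x) (M4.sh_mono (t s.1) hsub) h4
      rw [← h1 s.1] at h5
      exact h5
    rw [hxy] at h3
    obtain ⟨⟨s', hs', e⟩, -⟩ := h3
    have e1 : sh (-y) s'.1 = sh (-x) s.1 := congrArg Prod.fst e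
    have e2 : (Pool.Agent.K4H72.Til.shift (-y) s').2 = (Pool.Agent.K4H72.Til.shift (-x) s).2 :=
      congrArg Prod.snd e
    change s'.2 = s.2 at e2
    have e3 : s'.1 = sh (y - x) s.1 := by
      have h := congrArg (sh y) e1
      rw [sh_sh, sh_sh, add_neg_cancel, M4.sh_zero] at h
      rw [h, sub_eq_add_neg]
    have e4 : rep s'.1 = rep s.1 := by rw [e3, h2]
    have e5 : t s'.1 = y - x + t s.1 := by
      refine sh_inj (hpol s hs).1 (hpol s hs).2.1 ?_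
      rw [← sh_sh, ← h1 s.1, ← e3]
      conv_rhs => rw [h1 s'.1, e4]
    have e6 : Pool.Agent.K4H72.Til.shift (-x) (sh (t s.1) Q₀, (s.2, rep s.1, Q₀)) =
        Pool.Agent.K4H72.Til.shift (-y) (sh (t s'.1) Q₀, (s'.2, rep s'.1, Q₀)) := by
      refine Prod.ext ?_ ?_
      · show sh (-x) (sh (t s.1) Q₀) = sh (-y) (sh (t s'.1) Q₀)
        rw [sh_sh, sh_sh, e5]
        congr 1
        ring
      · show (s.2, rep s.1, Q₀) = (s'.2, rep s'.1, Q₀)
        rw [e2, e4]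
    refine ⟨?_, 0, hz, mem_singleton _⟩
    rw [e6]
    exact mem_image_of_mem _ ⟨s', hs', Q₀, by rw [e4]; exact hQ₀, rfl⟩
  exact fun x y hxy => (key x y hxy).antisymm (key y x hxy.symm)

end

end Pool.Agent.K4H59.TL
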