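import Pool.Agent.K4H72.Til.Spec

open Set

namespace Pool.Agent.K4H72.Til

/-- the reference point of a bounded set -/
noncomputable def ref (A : Set ℂ) : ℂ := ⟨sInf (Complex.re '' A), sInf (Complex.im '' A)⟩

/-- nonempty, and the distances are at most `d` -/
def Bd (A : Set ℂ) (d : ℝ) : Prop := A.Nonempty ∧ ∀ z ∈ A, ∀ w ∈ A, ‖z - w‖ ≤ d

theorem Bd.shift {A : Set ℂ} {d : ℝ} (h : Bd A d) (a : ℂ) : Bd ((fun z => a + z) '' A) d := by
  refine ⟨h.1.image _, ?_⟩
  rintro _ ⟨z, hz, rfl⟩ _ ⟨w, hw, rfl⟩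
  have e : a + z - (a + w) = z - w := by ring
  simpa only [e] using h.2 z hz w hw

theorem Bd.of_shift {A : Set ℂ} {d : ℝ} {a : ℂ} (h : Bd ((fun z => a + z) '' A) d) : Bd A d := by
  refine ⟨h.1.of_image, fun z hz w hw => ?_⟩
  have e : a + z - (a + w) = z - w := by ring
  have := h.2 _ (mem_image_of_mem _ hz) _ (mem_image_of_mem _ hw)
  simpa only [e] using this

theorem Bd.re_lb {A : Set ℂ} {d : ℝ} (h : Bd A d) {z : ℂ} (hz : z ∈ A) :
    z.re - d ∈ lowerBounds (Complex.re '' A) := by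
  rintro _ ⟨w, hw, rfl⟩
  have h1 := (Complex.abs_re_le_norm (z - w)).trans (h.2 z hz w hw)
  rw [Complex.sub_re] at h1
  linarith [(abs_le.1 h1).2]

theorem Bd.im_lb {A : Set ℂ} {d : ℝ} (h : Bd A d) {z : ℂ} (hz : z ∈ A) :
    z.im - d ∈ lowerBounds (Complex.im '' A) := by
  rintro _ ⟨w, hw, rfl⟩
  have h1 := (Complex.abs_im_le_norm (z - w)).trans (h.2 z hz w hw)
  rw [Complex.sub_im] at h1
  linarith [(abs_le.1 h1).2]

theorem Bd.near {A : Set ℂ} {d : ℝ} (h : Bd A d) {z : ℂ} (hz : z ∈ A) : ‖z - ref A‖ ≤ 2 * d := by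
  have h1 : sInf (Complex.re '' A) ≤ z.re := csInf_le ⟨_, h.re_lb hz⟩ (mem_image_of_mem _ hz)
  have h2 : sInf (Complex.im '' A) ≤ z.im := csInf_le ⟨_, h.im_lb hz⟩ (mem_image_of_mem _ hz)
  have h3 : z.re - d ≤ sInf (Complex.re '' A) := le_csInf (h.1.image _) (h.re_lb hz)
  have h4 : z.im - d ≤ sInf (Complex.im '' A) := le_csInf (h.1.image _) (h.im_lb hz)
  refine (Complex.norm_le_abs_re_add_abs_im _).trans ?_
  have h5 : |(z - ref A).re| ≤ d := by
    rw [Complex.sub_re, abs_le]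
    simp only [ref]
    constructor <;> linarith
  have h6 : |(z - ref A).im| ≤ d := by
    rw [Complex.sub_im, abs_le]
    simp only [ref]
    constructor <;> linarith
  linarith

theorem Bd.ref_shift {A : Set ℂ} {d : ℝ} (h : Bd A d) (a : ℂ) :
    ref ((fun z => a + z) '' A) = a + ref A := by
  obtain ⟨z, hz⟩ := h.1
  have e1 : Complex.re '' ((fun z => a + z) '' A) = OrderIso.addLeft a.re '' (Complex.re '' A) := by
    rw [image_image, image_image]
    rfl
  have e2 : Complex.im '' ((fun z => a + z) '' A) = OrderIso.addLeft a.im '' (Complex.im '' A) := by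
    rw [image_image, image_image]
    rfl
  apply Complex.ext
  · show sInf (Complex.re '' ((fun z => a + z) '' A)) = (a + ref A).re
    rw [e1, ← OrderIso.map_csInf' _ (h.1.image _) ⟨_, h.re_lb hz⟩]
    rfl
  · show sInf (Complex.im '' ((fun z => a + z) '' A)) = (a + ref A).im
    rw [e2, ← OrderIso.map_csInf' _ (h.1.image _) ⟨_, h.im_lb hz⟩]
    rfl

theorem mem_patch {C : Type} {T : Set (Tile C)} {t : Tile C} (ht : t ∈ T) {z x : ℂ} {R : ℝ}
    (hz : z ∈ t.1) (hx : ‖z - x‖ < R) : shift (-x) t ∈ patch T (-x) (Metric.ball 0 R) := by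
  refine ⟨mem_image_of_mem _ ht, -x + z, mem_image_of_mem _ hz, ?_⟩
  rw [mem_ball_zero_iff]
  have e : -x + z = z - x := by ring
  rwa [e]

theorem exists_diam {C : Type} (T : Set (Tile C)) (hT : IsTiling T) (hF : FLC T) :
    ∃ d : ℝ, 0 ≤ d ∧ ∀ t ∈ T, Bd t.1 d := by
  obtain ⟨F, hFf, hFp, hx⟩ := hF 1 one_pos
  have hfin : (⋃₀ F).Finite := hFf.sUnion hFp
  obtain ⟨d, hd⟩ := (hfin.image fun s : Tile C => Metric.diam s.1).bddAbove
  refine ⟨max d 0, le_max_right _ _, fun t ht => ?_⟩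
  have hpol := hT.polygon t ht
  obtain ⟨z, hz⟩ := hpol.1
  obtain ⟨P, hP, a, hPa⟩ := hx z
  have hmem : shift (-z) t ∈ patch T (-z) (Metric.ball 0 1) :=
    mem_patch ht hz (by rw [sub_self, norm_zero]; exact one_pos)
  rw [hPa] at hmem
  obtain ⟨s, hs, hst⟩ := hmem
  have h1 : Metric.diam s.1 ≤ d := hd (mem_image_of_mem _ (mem_sUnion_of_mem hs hP))
  have hiso : ∀ b : ℂ, Isometry (fun z : ℂ => b + z) := fun b => (IsometryEquiv.addLeft b).isometry
  have h2 : Metric.diam t.1 = Metric.diam s.1 := by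
    rw [← (hiso (-z)).diam_image t.1, ← (hiso a).diam_image s.1]
    exact congrArg Metric.diam (congrArg Prod.fst hst).symm
  refine ⟨hpol.1, fun v hv w hw => ?_⟩
  rw [← dist_eq_norm]
  refine (Metric.dist_le_diam_of_mem hpol.2.1.isBounded hv hw).trans ?_
  rw [h2]
  exact h1.trans (le_max_left _ _)

theorem points {C : Type} (T : Set (Tile C)) (hT : IsTiling T) (hF : FLC T) :
    ∃ (P : Set ℂ) (D : ℝ), 0 < D ∧ (∀ x : ℂ, ∃ p ∈ P, ‖x - p‖ ≤ D / 4) ∧
      {d : ℂ | ∃ p ∈ P, ∃ p' ∈ P, d = p - p' ∧ ‖d‖ ≤ 8 * D}.Finite ∧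
      ∀ R : ℝ, ∃ R' : ℝ, 0 < R' ∧ ∀ x y : ℂ,
        patch T (-x) (Metric.ball 0 R') = patch T (-y) (Metric.ball 0 R') →
          ∀ p : ℂ, ‖p‖ < R → (x + p ∈ P ↔ y + p ∈ P) := by
  obtain ⟨d, hd0, hd⟩ := exists_diam T hT hF
  refine ⟨{p | ∃ t ∈ T, p = ref t.1}, 8 * (d + 1), by positivity, ?_, ?_, ?_⟩
  · intro x
    obtain ⟨t, ht, hx⟩ := hT.cover x
    refine ⟨_, ⟨t, ht, rfl⟩, ((hd t ht).near hx).trans ?_⟩
    linarith
  · obtain ⟨F, hFf, hFp, hx⟩ := hF (8 * (8 * (d + 1)) + 4 * d + 1) (by positivity)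
    refine Set.Finite.subset (hFf.biUnion (t := fun P => image2 (fun s t : Tile C => ref s.1 - ref t.1) P P)
      fun P hP => (hFp P hP).image2 _ (hFp P hP)) ?_
    rintro _ ⟨p, ⟨s, hs, rfl⟩, p', ⟨t, ht, rfl⟩, rfl, hle⟩
    obtain ⟨z, hz⟩ := (hd t ht).1
    obtain ⟨w, hw⟩ := (hd s hs).1
    obtain ⟨P, hP, a, hPa⟩ := hx z
    have h1 : shift (-z) t ∈ shift a '' P := by
      rw [← hPa]
      refine mem_patch ht hz ?_
      rw [sub_self, norm_zero]
      positivity
    have h2 : shift (-z) s ∈ shift a '' P := by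
      rw [← hPa]
      refine mem_patch hs hw ?_
      have e : w - z = (w - ref s.1) + (ref s.1 - ref t.1) - (z - ref t.1) := by ring
      rw [e]
      have h3 := (hd s hs).near hw
      have h4 := (hd t ht).near hz
      have h5 := norm_sub_le ((w - ref s.1) + (ref s.1 - ref t.1)) (z - ref t.1)
      have h6 := norm_add_le (w - ref s.1) (ref s.1 - ref t.1)
      linarith
    obtain ⟨t', ht', e1⟩ := h1
    obtain ⟨s', hs', e2⟩ := h2
    have e1' : (fun z => a + z) '' t'.1 = (fun y => -z + y) '' t.1 := congrArg Prod.fst e1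
    have e2' : (fun z => a + z) '' s'.1 = (fun y => -z + y) '' s.1 := congrArg Prod.fst e2
    have b1 : Bd t'.1 d := Bd.of_shift (a := a) (by rw [e1']; exact (hd t ht).shift _)
    have b2 : Bd s'.1 d := Bd.of_shift (a := a) (by rw [e2']; exact (hd s hs).shift _)
    have r1 : a + ref t'.1 = -z + ref t.1 := by
      rw [← b1.ref_shift, e1', (hd t ht).ref_shift]
    have r2 : a + ref s'.1 = -z + ref s.1 := by
      rw [← b2.ref_shift, e2', (hd s hs).ref_shift]
    refine mem_biUnion hP ⟨s', hs', t', ht', ?_⟩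
    show ref s'.1 - ref t'.1 = ref s.1 - ref t.1
    linear_combination r2 - r1
  · intro R
    refine ⟨|R| + 2 * d + 1, by positivity, ?_⟩
    have key : ∀ x y : ℂ, patch T (-x) (Metric.ball 0 (|R| + 2 * d + 1)) =
        patch T (-y) (Metric.ball 0 (|R| + 2 * d + 1)) → ∀ p : ℂ, ‖p‖ < R →
        x + p ∈ {p | ∃ t ∈ T, p = ref t.1} → y + p ∈ {p | ∃ t ∈ T, p = ref t.1} := by
      rintro x y hxy p hp ⟨t, ht, hpt⟩
      obtain ⟨z, hz⟩ := (hd t ht).1
      have h1 : shift (-x) t ∈ patch T (-x) (Metric.ball 0 (|R| + 2 * d + 1)) := by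
        refine mem_patch ht hz ?_
        have e : z - x = (z - ref t.1) + p := by rw [← hpt]; ring
        rw [e]
        have h3 := (hd t ht).near hz
        have h4 := norm_add_le (z - ref t.1) p
        have h5 := le_abs_self R
        linarith
      rw [hxy] at h1
      obtain ⟨t', ht', e1⟩ := h1.1
      have e1' : (fun z => -y + z) '' t'.1 = (fun z => -x + z) '' t.1 := congrArg Prod.fst e1
      have r1 : -y + ref t'.1 = -x + ref t.1 := by
        rw [← (hd t' ht').ref_shift, e1', (hd t ht).ref_shift]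
      refine ⟨t', ht', ?_⟩
      linear_combination hpt - r1
    exact fun x y hxy p hp => ⟨key x y hxy p hp, key y x hxy.symm p hp⟩

end Pool.Agent.K4H72.Til
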