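import Pool.Agent.K4H58.XK.Spec

open Finset

namespace Pool.Agent.K4H58.XK

theorem meet_le_card {ι β : Type} [DecidableEq ι] [DecidableEq β] (C : Finset ι)
    (Y : ι → Finset β) (h : ∀ i ∈ C, ∀ j ∈ C, i ≠ j → Disjoint (Y i) (Y j)) (S : Finset β) :
    (C.filter (fun i => ¬ Disjoint (Y i) S)).card ≤ S.card := by
  classical
  refine Finset.card_le_card_of_forall_subsingleton (fun i x => x ∈ Y i) ?_ ?_
  · intro i hi
    obtain ⟨x, hx1, hx2⟩ := Finset.not_disjoint_iff.mp (Finset.mem_filter.mp hi).2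
    exact ⟨x, hx2, hx1⟩
  · intro x _ i hi j hj
    by_contra hne
    have hi' := Finset.mem_filter.mp hi.1
    have hj' := Finset.mem_filter.mp hj.1
    exact Finset.disjoint_left.mp (h i hi'.1 j hj'.1 hne) hi.2 hj.2

theorem dichotomy {ι α β : Type} [Fintype ι] [DecidableEq ι] [DecidableEq α] [DecidableEq β] {k : ℕ}
    (hk : 1 ≤ k) (X : ι → Finset α) (Y : ι → Finset β) (hX : ∀ i, (X i).card = k)
    (hY : ∀ i, (Y i).card = k)
    (hXY : ∀ i j, i ≠ j → (Disjoint (X i) (X j) ↔ ¬ Disjoint (Y i) (Y j))) :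
    (∀ C : Finset ι, (∀ i ∈ C, ∀ j ∈ C, i ≠ j → Disjoint (Y i) (Y j)) → C.card ≤ 2 * k) ∨
    (∀ C : Finset ι, (∀ i ∈ C, ∀ j ∈ C, i ≠ j → Disjoint (X i) (X j)) → C.card ≤ 2 * k) := by
  classical
  by_contra hcon
  push Not at hcon
  obtain ⟨⟨C, hC, hCk⟩, ⟨D, hD, hDk⟩⟩ := hcon
  have hcov : C ×ˢ D ⊆ (D.biUnion fun j => (C.filter (fun i => ¬ Disjoint (Y i) (Y j))) ×ˢ {j}) ∪
      (C.biUnion fun i => {i} ×ˢ (D.filter (fun j => ¬ Disjoint (X j) (X i)))) := by
    rintro ⟨i, j⟩ hij
    obtain ⟨hi, hj⟩ := Finset.mem_product.mp hij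
    simp only at hi hj
    by_cases hY' : Disjoint (Y i) (Y j)
    · refine Finset.mem_union_right _ (Finset.mem_biUnion.mpr ⟨i, hi, ?_⟩)
      refine Finset.mem_product.mpr ⟨Finset.mem_singleton_self _, Finset.mem_filter.mpr ⟨hj, ?_⟩⟩
      simp only
      intro hX'
      by_cases hne : i = j
      · subst hne
        have := Finset.disjoint_self_iff_empty _ |>.mp hX'
        have h0 := hX i
        rw [this] at h0
        simp at h0
        omega
      · exact ((hXY i j hne).mp hX'.symm) hY'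
    · refine Finset.mem_union_left _ (Finset.mem_biUnion.mpr ⟨j, hj, ?_⟩)
      exact Finset.mem_product.mpr ⟨Finset.mem_filter.mpr ⟨hi, hY'⟩, Finset.mem_singleton_self _⟩
  have h1 : (D.biUnion fun j => (C.filter (fun i => ¬ Disjoint (Y i) (Y j))) ×ˢ {j}).card ≤ D.card * k := by
    refine Finset.card_biUnion_le_card_mul _ _ _ ?_
    intro j _
    rw [Finset.card_product, Finset.card_singleton, mul_one]
    exact (meet_le_card C Y hC (Y j)).trans (hY j).le
  have h2 : (C.biUnion fun i => {i} ×ˢ (D.filter (fun j => ¬ Disjoint (X j) (X i)))).card ≤ C.card * k := by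
    refine Finset.card_biUnion_le_card_mul _ _ _ ?_
    intro i _
    rw [Finset.card_product, Finset.card_singleton, one_mul]
    exact (meet_le_card D X hD (X i)).trans (hX i).le
  have h3 := (Finset.card_le_card hcov).trans (Finset.card_union_le _ _)
  rw [Finset.card_product] at h3
  have h4 : C.card * D.card ≤ D.card * k + C.card * k := h3.trans (Nat.add_le_add h1 h2)
  nlinarith [Nat.mul_le_mul hCk (le_refl D.card), Nat.mul_le_mul (le_refl C.card) hDk]

end Pool.Agent.K4H58.XK
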